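import Pool.Agent.Q82.HKFinal

/-!
# The zero-angle point of a Hankel torus is not `C¹` when `D = ∞`

Elements of `L²_+(𝕋)` are represented by their Fourier coefficients `ℕ → ℂ`. The strictly
decreasing positive sequence is indexed from `0`: `s (2j) = ρ_{j+1}` and `s (2j+1) = σ_{j+1}`.
-/

set_option autoImplicit false

namespace Pool.Agent.Results.MP_ee8931_an.ZeroAngleNotC1

open Pool.Agent.Q82.HK

/-- **Answer to Q1 (true).** Let `(s_r)` be strictly decreasing, positive and square-summable with
`D((s_r)) = ∑ ρ_j σ_j / (ρ_j - σ_j) = ∞`, and let `u₀` be the point of the torus `𝒯((s_r))` all of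
whose angles vanish. Then `u₀` is not of class `C¹` on the circle. -/
theorem result (s : ℕ → ℝ) (hs : StrictAnti s) (hpos : ∀ r, 0 < s r)
    (_hsq : Summable fun r => s r ^ 2)
    (hD : ¬ Summable fun j => s (2 * j) * s (2 * j + 1) / (s (2 * j) - s (2 * j + 1)))
    (u₀ : ℕ → ℂ) (hu : InTorus s u₀) (ha : HasAngles s (fun _ => 0) u₀) : ¬ IsC1 u₀ :=
  fun hC => hD (main s hs hpos u₀ hu ha hC)

end Pool.Agent.Results.MP_ee8931_an.ZeroAngleNotC1
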